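import Pool.Agent.W792.LL.Stm

/-!
# Path expansion of the powers (task LL-EXP, helper193)
-/

namespace Pool.Agent.W193.LL.Exp

open Pool.Agent.W792.LL

theorem sum_cons {α : Type} (F : Finset α) (n : ℕ) (f : (Fin (n + 1) → α) → ℂ) :
    ∑ w ∈ Fintype.piFinset (fun _ : Fin (n + 1) => F), f w =
      ∑ y ∈ F, ∑ w ∈ Fintype.piFinset (fun _ : Fin n => F), f (Fin.cons y w) := by
  rw [← Finset.sum_product' F (Fintype.piFinset (fun _ : Fin n => F))
    (fun y w => f (Fin.cons y w))]
  symm
  refine Finset.sum_bij' (fun p _ => Fin.cons p.1 p.2) (fun w _ => (w 0, fun i => w i.succ))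
    ?_ ?_ ?_ ?_ ?_
  · rintro ⟨y, w⟩ hp
    rw [Finset.mem_product] at hp
    rw [Fintype.mem_piFinset]
    intro i
    refine Fin.cases ?_ (fun i => ?_) i
    · exact hp.1
    · exact Fintype.mem_piFinset.1 hp.2 i
  · intro w hw
    rw [Fintype.mem_piFinset] at hw
    rw [Finset.mem_product, Fintype.mem_piFinset]
    exact ⟨hw 0, fun i => hw i.succ⟩
  · rintro ⟨y, w⟩ _
    rfl
  · intro w _
    funext i
    refine Fin.cases ?_ (fun i => ?_) i <;> rfl
  · rintro ⟨y, w⟩ _
    rfl

theorem step (hO : S_OPR) (hD : S_DIA) (hT : S_TRIG) (d : ℕ) (h : (Fin d → ℤ) →₀ ℂ) (n : ℕ) :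
    ∀ x : Fin d → ℤ, ∃ F : Finset (Fin d → ℤ), ∀ F' : Finset (Fin d → ℤ), F ⊆ F' →
      ∀ c : (Fin d → ℤ) → ℂ, (∀ x, ‖c x‖ ≤ 1) →
      ((opr (trig h) * dia c) ^ n) (lp.single 2 (0 : Fin d → ℤ) (1 : ℂ)) x
        = ∑ w ∈ Fintype.piFinset (fun _ : Fin n => F'), pth h n x w * ∏ i, c (w i) := by
  classical
  induction n with
  | zero =>
    intro x
    refine ⟨∅, fun F' _ c _ => ?_⟩
    rw [pow_zero, one_apply_eq_self]
    by_cases hx : x = 0
    · subst hx
      simp [pth]
    · simp [pth, hx, lp.single_apply_ne]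
  | succ n ih =>
    intro x
    choose G hG using ih
    refine ⟨(h.support.image fun s => x - s) ∪ (h.support.image fun s => x - s).biUnion G,
      fun F' hF c hc => ?_⟩
    have hsup : ∀ y, h (x - y) ≠ 0 → y ∈ h.support.image fun s => x - s := by
      intro y hy
      rw [Finset.mem_image]
      exact ⟨x - y, Finsupp.mem_support_iff.2 hy, by abel⟩
    rw [pow_succ', mul_apply_eq_comp, mul_apply_eq_comp,
      ((hO d (trig h) (trig h)).1 _ x).2, tsum_eq_sum (s := F')]
    · rw [sum_cons]
      refine Finset.sum_congr rfl fun y _ => ?_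
      rw [(hT d).2 h, (hD _ c hc).1]
      by_cases hy : h (x - y) = 0
      · rw [hy, zero_mul]
        symm
        refine Finset.sum_eq_zero fun w _ => ?_
        simp [pth, hy]
      · have hy' := hsup y hy
        rw [hG y F' ((Finset.subset_biUnion_of_mem G hy').trans
          (Finset.subset_union_right.trans hF)) c hc, Finset.mul_sum, Finset.mul_sum]
        refine Finset.sum_congr rfl fun w _ => ?_
        rw [Fin.prod_univ_succ]
        simp only [pth, Fin.cons_zero, Fin.cons_succ]
        ring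
    · intro y hy
      rw [(hT d).2 h]
      have : h (x - y) = 0 := by
        by_contra h0
        exact hy (hF (Finset.mem_union_left _ (hsup y h0)))
      rw [this, zero_mul]

theorem main : S_OPR → S_DIA → S_TRIG → S_EXP := by
  intro hO hD hT d h n
  exact step hO hD hT d h n 0

end Pool.Agent.W193.LL.Exp
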